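import Pool.Agent.X219.CH.Stone

/-!
Topological conjugacy of topologically transitive homeomorphisms of the Cantor set is Borel
bi-reducible with the maximal `S_∞`-action.
-/

set_option autoImplicit false

open Set

namespace Pool.Agent.Results.MP_f7d718_lc.TransitiveIsMaximal

/-- The Cantor set `2^ℕ`. -/
abbrev Cantor : Type := ℕ → Bool

/-- A homeomorphism `S` of the Cantor set is topologically transitive: for all nonempty open sets
`U` and `V` there is an integer `n` with `S^n(U) ∩ V ≠ ∅`. -/
def IsTransitive (S : Cantor ≃ₜ Cantor) : Prop :=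
  ∀ U V : Set Cantor, IsOpen U → IsOpen V → U.Nonempty → V.Nonempty →
    ∃ n : ℤ, ((⇑(S ^ n) '' U) ∩ V).Nonempty

/-- The topologically transitive homeomorphisms of the Cantor set. -/
def TransHomeo : Type := {S : Cantor ≃ₜ Cantor // IsTransitive S}

/-- The topology of uniform convergence (the compact-open topology) on `TransHomeo`. -/
def uniformTopology : TopologicalSpace TransHomeo :=
  TopologicalSpace.induced (fun S : TransHomeo => (⟨S.1, S.1.continuous⟩ : C(Cantor, Cantor)))
    inferInstance

/-- Topological conjugacy: `S' = h S h⁻¹` for a homeomorphism `h` of the Cantor set. -/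
def Conjugate (S S' : TransHomeo) : Prop :=
  ∃ h : Cantor ≃ₜ Cantor, S'.1 = h * S.1 * h⁻¹

/-- The topology of pointwise convergence on `S_∞`, the group of all permutations of `ℕ`. -/
def sInfTopology : TopologicalSpace (Equiv.Perm ℕ) :=
  TopologicalSpace.induced (fun σ : Equiv.Perm ℕ => (σ : ℕ → ℕ)) inferInstance

/-- The action of `S_∞` on `Y` is Borel: `(σ, y) ↦ σ • y` is a Borel map on `S_∞ × Y`. -/
def IsBorelAction (Y : Type) (mY : MeasurableSpace Y) (aY : MulAction (Equiv.Perm ℕ) Y) : Prop :=
  @Measurable (Equiv.Perm ℕ × Y) Y ((@borel (Equiv.Perm ℕ) sInfTopology).prod mY) mY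
    fun p => p.1 • p.2

/-- The orbit equivalence relation of an action of `S_∞`. -/
def Orbit (Y : Type) (_ : MulAction (Equiv.Perm ℕ) Y) (y z : Y) : Prop :=
  ∃ σ : Equiv.Perm ℕ, σ • y = z

/-- `E ≤_B F`: there is a Borel map `f` with `E x x'` iff `F (f x) (f x')`. -/
def BorelReducible {X Y : Type} (mX : MeasurableSpace X) (E : X → X → Prop)
    (mY : MeasurableSpace Y) (F : Y → Y → Prop) : Prop :=
  ∃ f : X → Y, @Measurable X Y mX mY f ∧ ∀ x x' : X, E x x' ↔ F (f x) (f x')

/-- A maximal `S_∞`-action: a Borel action of `S_∞` on a standard Borel space to which the orbit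
equivalence relation of every Borel action of `S_∞` on a standard Borel space is Borel
reducible. -/
def IsMaximal (Y : Type) (mY : MeasurableSpace Y) (aY : MulAction (Equiv.Perm ℕ) Y) : Prop :=
  StandardBorelSpace Y ∧ IsBorelAction Y mY aY ∧
    ∀ (Z : Type) (mZ : MeasurableSpace Z) (aZ : MulAction (Equiv.Perm ℕ) Z),
      StandardBorelSpace Z → IsBorelAction Z mZ aZ → BorelReducible mZ (Orbit Z aZ) mY (Orbit Y aY)

theorem result :
    (∃ (Y : Type) (mY : MeasurableSpace Y) (aY : MulAction (Equiv.Perm ℕ) Y), IsMaximal Y mY aY) ∧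
    ∀ (Y : Type) (mY : MeasurableSpace Y) (aY : MulAction (Equiv.Perm ℕ) Y), IsMaximal Y mY aY →
      BorelReducible mY (Orbit Y aY) (@borel TransHomeo uniformTopology) Conjugate ∧
      BorelReducible (@borel TransHomeo uniformTopology) Conjugate mY (Orbit Y aY) := by
  have hb : @borel TransHomeo uniformTopology =
      (Pool.Agent.X219.CH.homeoBorel).comap (fun S : TransHomeo => S.1) := by
    have h1 : uniformTopology = TopologicalSpace.induced (fun S : TransHomeo => S.1)
        Pool.Agent.X219.CH.homeoTop := by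
      unfold uniformTopology Pool.Agent.X219.CH.homeoTop
      rw [induced_compose]
      rfl
    rw [h1, borel_comap]
  -- every Borel action reduces to conjugacy
  have h1 : ∀ (Z : Type) (mZ : MeasurableSpace Z) (aZ : MulAction (Equiv.Perm ℕ) Z),
      StandardBorelSpace Z → IsBorelAction Z mZ aZ →
      BorelReducible mZ (Orbit Z aZ) (@borel TransHomeo uniformTopology) Conjugate := by
    intro Z mZ aZ hZ hact
    refine ⟨fun z => ⟨Pool.Agent.X219.CH.TC (Pool.Agent.X219.Sinf.code z),
      Pool.Agent.X219.CH.isTrans_TC _⟩, ?_, fun x x' => ?_⟩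
    · rw [hb, measurable_comap_iff]
      exact Pool.Agent.X219.CH.measurable_TC (Pool.Agent.X219.Sinf.measurable_code hact)
    · exact (Pool.Agent.X219.Sinf.code_iff hact x x').symm.trans
        (Pool.Agent.X219.CH.conj_TC_iff _ _).symm
  -- conjugacy reduces to an action
  have h2 : BorelReducible (@borel TransHomeo uniformTopology) Conjugate
      (inferInstance : MeasurableSpace Pool.Agent.X219.CH.W)
      (Orbit Pool.Agent.X219.CH.W inferInstance) := by
    refine ⟨fun S => Pool.Agent.X219.CH.st S.1, ?_, fun S S' => ?_⟩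
    · rw [hb]
      exact Pool.Agent.X219.CH.measurable_st.comp (comap_measurable _)
    · exact Pool.Agent.X219.CH.conj_iff_orbit S.1 S'.1
  have h3 : IsBorelAction Pool.Agent.X219.CH.W inferInstance inferInstance :=
    Pool.Agent.X219.CH.measurable_smul_W
  have htrans : ∀ {X Y Z : Type} {mX : MeasurableSpace X} {E : X → X → Prop}
      {mY : MeasurableSpace Y} {F : Y → Y → Prop} {mZ : MeasurableSpace Z} {G : Z → Z → Prop},
      BorelReducible mX E mY F → BorelReducible mY F mZ G → BorelReducible mX E mZ G := by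
    rintro X Y Z mX E mY F mZ G ⟨f, hf, hf2⟩ ⟨g, hg, hg2⟩
    exact ⟨fun x => g (f x), hg.comp hf, fun x x' => (hf2 x x').trans (hg2 _ _)⟩
  refine ⟨⟨Pool.Agent.X219.CH.W, inferInstance, inferInstance, inferInstance, h3,
    fun Z mZ aZ hZ hact => htrans (h1 Z mZ aZ hZ hact) h2⟩, fun Y mY aY hY => ?_⟩
  exact ⟨h1 Y mY aY hY.1 hY.2.1, htrans h2 (hY.2.2 _ _ _ inferInstance h3)⟩

end Pool.Agent.Results.MP_f7d718_lc.TransitiveIsMaximal
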